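import Mathlib

set_option autoImplicit false

namespace Pool.Agent.H.MP_073e7c_an

open Equiv

abbrev Z2 := ℤ × ℤ
abbrev Z3 := ℤ × ℤ × ℤ

def par (c : Z3) : ℤˣ := (c.1 + c.2.1 + c.2.2).negOnePow

def In (c : Z2) (k : ℤ) (v : Z2) : Prop := c.1 - k ≤ v.1 ∧ v.1 ≤ c.1 + k ∧ c.2 - k ≤ v.2 ∧ v.2 ≤ c.2 + k

def Adj (v w : Z2) : Prop := (w.1 = v.1 + 1 ∨ w.1 + 1 = v.1) ∧ w.2 = v.2 ∨ w.1 = v.1 ∧ (w.2 = v.2 + 1 ∨ w.2 + 1 = v.2)

def Cell (B : Z2 → Prop) (z : Z3 → Z3) (n : Z3 → ℤˣ) (c : Z3) : Prop :=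
  z c = (-1, 0) ∧ n c = par c ∧ n (c.1 + 1, c.2) = par c ∨ z c = (1, 0) ∧ n c = -par c ∧ n (c.1 + 1, c.2) = -par c ∨
    ∃ w, B w ∧ Adj c.2 w ∧ z c = (0, w - c.2) ∧ z (c.1, w) = (0, c.2 - w) ∧ n c = -par c ∧ n (c.1 + 1, c.2) = par c

def Hs (B : Z2 → Prop) (s m : ℤ) (a b : Z2 → ℤˣ) : Prop := ∃ z n, (∀ c : Z3, s ≤ c.1 → c.1 < s + m → B c.2 → Cell B z n c) ∧
  (∀ v, B v → n (s, v) = a v) ∧ ∀ v, B v → n (s + m, v) = b v

theorem par_succ (t v) : par (t + 1, v) = -par (t, v) := by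
  simp only [par]
  rw [← Int.negOnePow_succ]
  congr 1
  ring

theorem par_adj (t) {v w} (h : Adj v w) : par (t, w) = -par (t, v) := by
  simp only [par]
  rw [← Int.negOnePow_succ, Int.negOnePow_eq_iff, even_iff_two_dvd]
  unfold Adj at h
  omega

theorem u2 (a b : ℤˣ) : a = b ∨ a = -b := by revert a b; decide

theorem un (a : ℤˣ) : a ≠ -a := by revert a; decide

variable {B : Z2 → Prop}

theorem Cell.congr {z z' n n' c} (h : Cell B z n c) (hz : ∀ w, B w → z' (c.1, w) = z (c.1, w)) (hB : B c.2) (h1 : n' c = n c)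
    (h2 : n' (c.1 + 1, c.2) = n (c.1 + 1, c.2)) : Cell B z' n' c := by
  have := hz _ hB
  rcases h with h | h | ⟨w, a, b, h⟩
  · exact .inl (by rwa [this, h1, h2])
  · exact .inr (.inl (by rwa [this, h1, h2]))
  · exact .inr (.inr ⟨w, a, b, by rwa [this, h1, h2, hz w a]⟩)

theorem Hs.idle (s m a) : Hs B s m a a :=
  ⟨fun c => if a c.2 = par c then (-1, 0) else (1, 0), fun c => a c.2, fun c _ _ _ => by
    by_cases h : a c.2 = par c
    · exact .inl ⟨if_pos h, h, h⟩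
    · exact .inr (.inl ⟨if_neg h, (u2 _ _).resolve_left h, (u2 _ _).resolve_left h⟩), fun _ _ => rfl, fun _ _ => rfl⟩

theorem Hs.trans {s m m' a b d} (h : Hs B s m a b) (h' : Hs B (s + m) m' b d) (hm : 0 ≤ m) (hm' : 0 ≤ m') : Hs B s (m + m') a d := by
  obtain ⟨z, n, x1, x2, x3⟩ := h
  obtain ⟨z', n', y1, y2, y3⟩ := h'
  have k : ∀ t v, B v → s + m ≤ t → (if t ≤ s + m then n (t, v) else n' (t, v)) = n' (t, v) := fun t v a b => by
    split_ifs with c
    · rw [le_antisymm c b, x3 v a, y2 v a]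
    · rfl
  refine ⟨fun c => if c.1 < s + m then z c else z' c, fun c => if c.1 ≤ s + m then n c else n' c, fun c a b d => ?_,
    fun v a => (if_pos (by simpa using hm)).trans (x2 v a), fun v a => (k _ v a (by omega)).trans (add_assoc s m m' ▸ y3 v a)⟩
  by_cases e : c.1 < s + m
  · exact (x1 c a e d).congr (fun _ _ => if_pos e) d (if_pos e.le) (if_pos e)
  · exact (y1 c (by omega) (by omega) d).congr (fun _ _ => if_neg e) d (k _ _ d (by omega)) (k _ _ d (by omega))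

theorem adj_symm {v w} (h : Adj v w) : Adj w v := by unfold Adj at *; omega

theorem adj_ne {v w} (h : Adj v w) : w ≠ v := by rintro rfl; unfold Adj at h; omega

theorem sw1 {s u w} {a : Z2 → ℤˣ} (hu : B u) (hw : B w) (h : Adj u w) (h1 : a u = -par (s, u)) (h2 : a w = par (s, u)) :
    Hs B s 1 a (a ∘ swap u w) := by
  refine ⟨fun c => if c.2 = u then (0, w - u) else if c.2 = w then (0, u - w) else if a c.2 = par c then (-1, 0) else (1, 0),
    fun c => if c.1 ≤ s then a c.2 else a (swap u w c.2), ?_, fun v _ => by simp, fun v _ => by simp⟩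
  rintro ⟨t, v⟩ x y -
  obtain rfl : t = s := by simp only at x y; omega
  have := adj_ne h
  by_cases e : v = u
  · exact .inr (.inr ⟨w, hw, e ▸ h, by simp [e, this, h1, h2]⟩)
  by_cases e' : v = w
  · exact .inr (.inr ⟨u, hu, e' ▸ adj_symm h, by simp [e', this, h1, h2, par_adj t h]⟩)
  rcases u2 (a v) (par (t, v)) with c | c
  · exact .inl (by simp [e, e', c, swap_apply_of_ne_of_ne e e'])
  · exact .inr (.inl (by simp [e, e', c, swap_apply_of_ne_of_ne e e', (un _).symm]))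

theorem sw2 {s u w} {a : Z2 → ℤˣ} (hu : B u) (hw : B w) (h : Adj u w) : Hs B s 2 a (a ∘ swap u w) := by
  rcases u2 (a w) (a u) with c | c
  · rw [show a ∘ swap u w = a from funext fun v => apply_swap_eq_self c.symm v]
    exact .idle _ _ _
  rcases u2 (a u) (par (s, u)) with d | d
  · exact (Hs.idle s 1 a).trans (sw1 hu hw h (by rw [par_succ, neg_neg, d]) (by rw [par_succ, c, d])) zero_le_one zero_le_one
  · exact (sw1 hu hw h d (by rw [c, d, neg_neg])).trans (.idle _ 1 _) zero_le_one zero_le_one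

theorem Hs.pad {s m m' a b} (h : Hs B s m a b) (hm : 0 ≤ m) (hm' : m ≤ m') : Hs B s m' a b := by
  simpa using h.trans (.idle _ (m' - m) b) hm (by omega)

theorem swD (c r) (d : ℕ) : ∀ s u w (a : Z2 → ℤˣ), In c r u → In c r w → (u.1 - w.1).natAbs + (u.2 - w.2).natAbs ≤ d →
    Hs (In c r) s (4 * d) a (a ∘ swap u w) := by
  induction d with
  | zero =>
    intro s u w a _ _ h
    rw [show u = w from Prod.ext (by omega) (by omega), swap_self]
    exact .idle _ _ _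
  | succ d ih =>
    intro s u w a hu hw h
    by_cases e : u = w
    · rw [e, swap_self]
      exact .idle _ _ _
    obtain ⟨x, h1, h2, h3⟩ : ∃ x, In c r x ∧ Adj x u ∧ (w.1 - x.1).natAbs + (w.2 - x.2).natAbs ≤ d := by
      rw [Prod.ext_iff] at e
      unfold In Adj at *
      by_cases u.1 < w.1
      · exact ⟨(u.1 + 1, u.2), by dsimp only; omega⟩
      by_cases w.1 < u.1
      · exact ⟨(u.1 - 1, u.2), by dsimp only; omega⟩
      by_cases u.2 < w.2
      · exact ⟨(u.1, u.2 + 1), by dsimp only; omega⟩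
      · exact ⟨(u.1, u.2 - 1), by dsimp only; omega⟩
    by_cases e' : w = x
    · rw [e', swap_comm]
      exact (sw2 h1 hu h2).pad (by omega) (by omega)
    have := ((sw2 (s := s) (a := a) h1 hu h2).trans (ih _ w x _ hw h1 h3) (by omega) (by omega)).trans (sw2 h1 hu h2) (by omega) (by omega)
    rw [Function.comp_assoc, Function.comp_assoc, ← Perm.coe_mul, ← Perm.coe_mul, ← mul_assoc,
      swap_mul_swap_mul_swap e' (Ne.symm e)] at this
    exact this.pad (by omega) (by push_cast; omega)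

noncomputable def bx (c : Z2) (k : ℤ) : Finset Z2 := Finset.Icc (c.1 - k, c.2 - k) (c.1 + k, c.2 + k)

theorem mem_bx {c k v} : v ∈ bx c k ↔ In c k v := by simp only [bx, In, Finset.mem_Icc, Prod.le_def]; tauto

theorem conn0 (c) (r : ℕ) (b : Z2 → ℤˣ) (k : ℕ) : ∀ s (a : Z2 → ℤˣ), ∑ v ∈ bx c r, (a v : ℤ) = ∑ v ∈ bx c r, (b v : ℤ) →
    ((bx c r).filter fun v => a v ≠ b v).card ≤ k → Hs (In c r) s (16 * r * k) a b := by
  induction k with
  | zero =>
    intro s a _ h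
    obtain ⟨z, n, x, y, w⟩ := Hs.idle (B := In c r) s (16 * r * (0 : ℕ)) a
    refine ⟨z, n, x, y, fun v e => (w v e).trans (by_contra fun f => ?_)⟩
    exact absurd (Finset.card_pos.2 ⟨v, Finset.mem_filter.2 ⟨mem_bx.2 e, f⟩⟩) (not_lt.2 h)
  | succ k ih =>
    intro s a e h
    have p : (0 : ℤ) ≤ 16 * r * k := by positivity
    by_cases h' : ((bx c r).filter fun v => a v ≠ b v).card ≤ k
    · exact (ih s a e h').pad p (by push_cast; nlinarith)
    obtain ⟨u, hu⟩ := Finset.card_pos.1 ((Nat.zero_le k).trans_lt (not_le.1 h'))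
    obtain ⟨u1, u3⟩ := Finset.mem_filter.1 hu
    obtain ⟨w, w1, w2, w3⟩ : ∃ w ∈ bx c r, a w = b u ∧ b w = a u := by
      by_contra! x
      have : ∑ v ∈ bx c r, (b u : ℤ) * a v < ∑ v ∈ bx c r, (b u : ℤ) * b v := Finset.sum_lt_sum (fun v hv =>
        (by decide : ∀ x y z t : ℤˣ, x ≠ y → (z = y → t ≠ x) → (y : ℤ) * z ≤ y * t) _ _ _ _ u3 (x v hv))
        ⟨u, u1, (by decide : ∀ x y : ℤˣ, x ≠ y → (y : ℤ) * x < y * y) _ _ u3⟩
      rw [← Finset.mul_sum, ← Finset.mul_sum, e] at this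
      exact lt_irrefl _ this
    have := (swD c r (4 * r) s u w a (mem_bx.1 u1) (mem_bx.1 w1) (by
      have := mem_bx.1 u1; have := mem_bx.1 w1; unfold In at *; omega)).trans (ih _ (a ∘ swap u w) ?_ ?_) (by positivity) p
    · exact this.pad (by positivity) (by push_cast; nlinarith)
    · rw [← e]
      refine Perm.sum_comp (swap u w) _ (fun v => (a v : ℤ)) fun v hv => ?_
      obtain rfl | rfl := eq_or_eq_of_swap_apply_ne_self hv
      exacts [u1, w1]
    · refine Nat.le_of_lt_succ ((Finset.card_lt_card ⟨fun v hv => ?_, fun x => ?_⟩).trans_le h)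
      · rw [Finset.mem_filter] at hv ⊢
        refine ⟨hv.1, fun f => hv.2 ?_⟩
        by_cases c1 : v = u
        · exact absurd (c1 ▸ f) u3
        by_cases c2 : v = w
        · simp [c2, w3]
        · simp [swap_apply_of_ne_of_ne c1 c2, f]
      · exact (Finset.mem_filter.1 (x hu)).2 (by simp [w2])

theorem conn (c) (r : ℕ) (s m : ℤ) (a b : Z2 → ℤˣ) (h : ∑ v ∈ bx c r, (a v : ℤ) = ∑ v ∈ bx c r, (b v : ℤ))
    (hm : 16 * r * (2 * r + 1) ^ 2 ≤ m) : Hs (In c r) s m a b := by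
  refine (conn0 c r b ((2 * r + 1) ^ 2) s a h ((Finset.card_filter_le _ _).trans (le_of_eq ?_))).pad (by positivity) (by push_cast; exact hm)
  rw [bx, Finset.Icc_prod_def, Finset.card_product, Int.card_Icc, Int.card_Icc, sq]
  congr 1 <;> simp only <;> omega

def Dom (z : Z3 → Z3) : Prop := ∀ c, (z c = (1, 0) ∨ z c = (-1, 0) ∨ ∃ w, Adj 0 w ∧ z c = (0, w)) ∧ z (c + z c) = -z c

theorem dom_of {z n} (h : ∀ c, ∃ B, Cell B z n c) : Dom z := fun c => by
  obtain ⟨t, v⟩ := c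
  obtain ⟨_, ⟨a, b, -⟩ | ⟨a, -, b⟩ | ⟨w, -, a, b, c, -⟩⟩ := h (t, v)
  · refine ⟨.inr (.inl a), ?_⟩
    have e := par_succ (t - 1) v
    obtain ⟨_, ⟨-, -, x⟩ | ⟨x, -⟩ | ⟨_, -, -, -, -, -, x⟩⟩ := h (t - 1, v)
    · exact absurd (x.symm.trans (by simpa using b.trans (by simpa using e))) (un _)
    · simpa [a, sub_eq_add_neg] using x
    · exact absurd (x.symm.trans (by simpa using b.trans (by simpa using e))) (un _)
  · refine ⟨.inl a, ?_⟩
    have e := par_succ t v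
    obtain ⟨_, ⟨x, -⟩ | ⟨-, x, -⟩ | ⟨_, -, -, -, -, x, -⟩⟩ := h (t + 1, v)
    · simpa [a] using x
    · exact absurd ((b.trans e.symm).symm.trans x) (un _)
    · exact absurd ((b.trans e.symm).symm.trans x) (un _)
  · refine ⟨.inr (.inr ⟨_, ?_, b⟩), by simpa [b] using c⟩
    simp only [Adj, Prod.fst_sub, Prod.snd_sub, Prod.fst_zero, Prod.snd_zero] at a ⊢
    omega

end Pool.Agent.H.MP_073e7c_an
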