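import Mathlib
import Pool.Agent.H.MP_073e7c_an.A

set_option autoImplicit false

namespace Pool.Agent.H.MP_073e7c_an

open Finset

def sg (s : Z3 → ℤˣ) (q q' : Z3) : ℤ := if q'.1 < q.1 then s q else if q.1 < q'.1 then -s q' else 0

def lt2 (w v : Z2) : Prop := w.1 < v.1 ∨ w.1 = v.1 ∧ w.2 < v.2

section
variable (o o' : Z2 → Z3) (a a' : Z2 → Z2 → ZMod 2) (s s' : Z3 → ℤˣ)

noncomputable def E (q q' : Z3) : ZMod 2 := ∑ᶠ x : Z2 × Z2, if o x.1 = q ∧ o x.2 = q' then a x.1 x.2 else 0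

noncomputable def L (q q' : Z3) : ℤ := sg s q q' * (E o a q q').val

noncomputable def Lam (q : Z3) : ℤ := ∑ᶠ q', L o a s q q'

noncomputable def nu (v : Z2) : ℤˣ := s (o v) *
  if 2 * ({w | o w = o v ∧ lt2 w v}.ncard : ℤ) < {w | o w = o v}.ncard + s (o v) * Lam o a s (o v) then 1 else -1

structure Ok (R : ℤ) (K : ℕ) : Prop where
  h1 : ∀ v, In (o v).2 R v
  h2 : ∀ v, K ≤ {w | o w = o v}.ncard
  h3 : ∀ q : Z3, ((bx q.2 (R + 1)).image o).card ≤ K
  h4 : ∀ v w, Adj v w → o v ≠ o w → (o v).1 ≠ (o w).1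
  sy : ∀ v w, a v w = a w v
  su : ∀ v w, a v w ≠ 0 → Adj v w
  dg : ∀ v (F : Finset Z2), (∀ w, Adj v w → w ∈ F) → ∑ w ∈ F, a v w = 1

variable {o o' a a' s s'} {R : ℤ} {K : ℕ}

theorem E_eq (su : ∀ v w, a v w ≠ 0 → Adj v w) {q q'} (S T : Finset Z2) (h : ∀ v w, Adj v w → o v = q → o w = q' → v ∈ S ∧ w ∈ T) :
    E o a q q' = ∑ v ∈ S with o v = q, ∑ w ∈ T with o w = q', a v w := by
  rw [E, finsum_eq_sum_of_support_subset (s := S.filter (o · = q) ×ˢ T.filter (o · = q')), sum_product]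
  · exact sum_congr rfl fun v hv => sum_congr rfl fun w hw => if_pos ⟨(mem_filter.1 hv).2, (mem_filter.1 hw).2⟩
  · intro x hx
    simp only [Function.mem_support, ne_eq, ite_eq_right_iff, Classical.not_imp] at hx
    have := h _ _ (su _ _ hx.2) hx.1.1 hx.1.2
    simp [this, hx.1]

theorem E_ne (su : ∀ v w, a v w ≠ 0 → Adj v w) {q q'} (h : E o a q q' ≠ 0) : ∃ v w, Adj v w ∧ o v = q ∧ o w = q' := by
  by_contra! x
  exact h (by rw [E_eq su ∅ ∅ fun v w b c d => absurd d (x v w b c)]; rfl)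

theorem E_congr (su : ∀ v w, a v w ≠ 0 → Adj v w) (su' : ∀ v w, a' v w ≠ 0 → Adj v w) {q q'}
    (h : ∀ v w, Adj v w → o v = q ∧ o w = q' ∨ o' v = q ∧ o' w = q' → o v = o' v ∧ o w = o' w ∧ a v w = a' v w) :
    E o a q q' = E o' a' q q' := by
  refine finsum_congr fun x => ?_
  by_cases b : Adj x.1 x.2
  · by_cases c : o x.1 = q ∧ o x.2 = q' ∨ o' x.1 = q ∧ o' x.2 = q'
    · obtain ⟨e1, e2, e3⟩ := h _ _ b c
      rw [e1, e2, e3]
    · rw [if_neg fun d => c (.inl d), if_neg fun d => c (.inr d)]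
  · rw [not_not.1 (mt (su _ _) b), not_not.1 (mt (su' _ _) b), ite_self, ite_self]

theorem L_anti (sy : ∀ v w, a v w = a w v) (q q') : L o a s q q' = -L o a s q' q := by
  have : E o a q q' = E o a q' q := by
    rw [E, ← finsum_comp_equiv (Equiv.prodComm _ _)]
    exact finsum_congr fun x => by simp [and_comm, sy x.1]
  rw [L, L, this, ← neg_mul]
  congr 1
  unfold sg
  split_ifs <;> omega

theorem Lam_eq (h : Ok o a R K) (q) (W : Finset Z3) (hW : (bx q.2 (R + 1)).image o ⊆ W) : Lam o a s q = ∑ q' ∈ W, L o a s q q' := by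
  refine finsum_eq_sum_of_support_subset _ fun q' x => hW ?_
  obtain ⟨v, w, b, rfl, rfl⟩ := E_ne h.su (o := o) (q := q) (q' := q') fun e => x (by simp [L, e])
  have := h.h1 v
  exact mem_image_of_mem _ (mem_bx.2 (by unfold In Adj at *; omega))

theorem rank (P : Finset Z2) (N : ℕ) (h : N ≤ P.card) [DecidableRel lt2] : #{v ∈ P | #{w ∈ P | lt2 w v} < N} = N := by
  have m : ∀ v ∈ P, ∀ w, lt2 v w → #{x ∈ P | lt2 x v} < #{x ∈ P | lt2 x w} := fun v hv w c => card_lt_card
    ⟨fun x hx => mem_filter.2 ⟨(mem_filter.1 hx).1, by have := (mem_filter.1 hx).2; unfold lt2 at *; omega⟩, fun e => by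
      have := (mem_filter.1 (e (mem_filter.2 ⟨hv, c⟩))).2
      unfold lt2 at this
      omega⟩
  have i : Set.InjOn (fun v => #{x ∈ P | lt2 x v}) P := fun v hv w hw e => by
    have h1 := mt (m v hv w) (not_lt.2 e.ge)
    have h2 := mt (m w hw v) (not_lt.2 e.le)
    unfold lt2 at h1 h2
    exact Prod.ext (by omega) (by omega)
  have e : P.image (fun v => #{x ∈ P | lt2 x v}) = range P.card := eq_of_subset_of_card_le (fun n hn => by
    obtain ⟨v, hv, rfl⟩ := mem_image.1 hn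
    exact mem_range.2 (card_lt_card ⟨filter_subset _ _, fun e => by
      have := (mem_filter.1 (e hv)).2; unfold lt2 at this; omega⟩)) (by rw [card_image_of_injOn i, card_range])
  rw [← card_image_of_injOn (i.mono (coe_subset.2 (filter_subset _ _))), ← filter_image (p := (· < N)), e]
  conv_rhs => rw [← card_range N]
  congr 1
  ext
  simp only [mem_filter, mem_range]
  omega

theorem count (h : Ok o a R K) (q) (S : Finset Z2) (hS : ∀ v, o v = q → v ∈ S) : ∑ v ∈ S with o v = q, (nu o a s v : ℤ) = Lam o a s q := by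
  classical
  set P := S.filter (o · = q) with hP
  have mP : ∀ v, v ∈ P ↔ o v = q := fun v => ⟨fun x => (mem_filter.1 x).2, fun x => mem_filter.2 ⟨hS v x, x⟩⟩
  have z2 : ∀ x : ZMod 2, x ≠ 0 → x.val = 1 := by decide
  have l := Lam_eq (s := s) h q _ subset_rfl
  obtain e | ⟨v, hv⟩ := P.eq_empty_or_nonempty
  · rw [e, l, sum_empty, sum_eq_zero fun q' _ => ?_]
    by_contra x
    obtain ⟨v, -, -, b, -⟩ := E_ne h.su (o := o) (q := q) (q' := q') fun e => x (by simp [L, e])
    simpa [e] using (mP v).2 b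
  have c1 : {w | o w = q}.ncard = P.card := by rw [← Set.ncard_coe_finset]; congr 1; ext; simp only [mem_coe, mP]; rfl
  have b1 : |Lam o a s q| ≤ P.card := by
    rw [l, ← c1, ← (mP v).1 hv]
    refine (abs_sum_le_sum_abs _ _).trans ((sum_le_card_nsmul _ _ 1 fun q' _ => ?_).trans (by simpa using (h.h3 _).trans (h.h2 v)))
    have : ∀ (x : ZMod 2) (y : ℤˣ), |(y : ℤ) * x.val| ≤ 1 ∧ |-(y : ℤ) * x.val| ≤ 1 := by decide
    unfold L sg
    split_ifs
    exacts [(this _ _).1, (this _ _).2, by simp]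
  have b2 : ((Lam o a s q : ℤ) : ZMod 2) = P.card := by
    have k : ∀ q', E o a q q' = ∑ v ∈ P, ∑ w ∈ bx q.2 (R + 1) with o w = q', a v w := fun q' => E_eq h.su _ _ fun v w b c _ =>
      ⟨hS v c, by have := h.h1 v; rw [c] at this; exact mem_bx.2 (by unfold In Adj at *; omega)⟩
    rw [l, Int.cast_sum, sum_congr rfl (g := E o a q) fun q' _ => ?_]
    · simp only [k]
      rw [sum_comm, card_eq_sum_ones, Nat.cast_sum]
      refine sum_congr rfl fun v x => (sum_fiberwise_of_maps_to (fun w y => mem_image_of_mem _ y) _).trans (h.dg _ _ fun w b => ?_)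
      have := h.h1 v
      rw [(mP v).1 x] at this
      exact mem_bx.2 (by unfold In Adj at *; omega)
    by_cases x : E o a q q' = 0
    · simp [L, x]
    by_cases y : q' = q
    · refine absurd ?_ x
      rw [y, E_eq h.su S S fun v w _ b c => ⟨hS v b, hS w c⟩, ← sum_product']
      exact sum_involution (fun x _ => x.swap) (fun x _ => by rw [h.sy]; exact CharTwo.add_self_eq_zero _)
        (fun x _ b c => adj_ne (h.su _ _ b) (congrArg Prod.fst c)) (fun x b => by simpa [and_comm] using b) fun _ _ => rfl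
    obtain ⟨v, w, b, rfl, rfl⟩ := E_ne h.su x
    have := h.h4 v w b (Ne.symm y)
    have u : ∀ (x : ZMod 2) (y : ℤˣ), (((y : ℤ) * x.val : ℤ) : ZMod 2) = x ∧ ((-(y : ℤ) * x.val : ℤ) : ZMod 2) = x := by decide
    unfold L sg
    split_ifs
    exacts [(u _ _).1, (u _ _).2, by omega]
  obtain ⟨N, n1, n2⟩ : ∃ N : ℕ, N ≤ P.card ∧ (P.card : ℤ) + s q * Lam o a s q = 2 * N := by
    have := (ZMod.intCast_eq_intCast_iff_dvd_sub _ _ 2).1 (b2.trans (Int.cast_natCast _).symm)
    rw [abs_le] at b1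
    refine ⟨(((P.card : ℤ) + (s q : ℤ) * Lam o a s q) / 2).toNat, ?_⟩
    rcases Int.units_eq_one_or (s q) with e | e <;> simp only [e, Units.val_one, Units.val_neg] <;> omega
  rw [sum_congr rfl (g := fun v => (s q : ℤ) * if #{w ∈ P | lt2 w v} < N then 1 else -1) fun v x => ?_, ← mul_sum, sum_ite, sum_const,
    sum_const, rank P N n1]
  · have := card_filter_add_card_filter_not (s := P) fun v => #{w ∈ P | lt2 w v} < N
    rw [rank P N n1] at this
    rcases Int.units_eq_one_or (s q) with e | e <;> simp only [e, Units.val_one, Units.val_neg, nsmul_eq_mul] at n2 ⊢ <;> omega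
  · have : {w | o w = q ∧ lt2 w v}.ncard = #{w ∈ P | lt2 w v} := by
      rw [← Set.ncard_coe_finset]; congr 1; ext; simp only [coe_filter, mP]
    rw [nu, (mP v).1 x, c1, n2, this]
    split_ifs <;> first | omega | simp

theorem nu_congr {v} (h1 : o v = o' v) (h2 : ∀ w, o w = o v ↔ o' w = o v) (h3 : s (o v) = s' (o v))
    (h4 : ∀ q', L o a s (o v) q' = L o' a' s' (o v) q') : nu o a s v = nu o' a' s' v := by
  simp only [nu, Lam, ← h1, ← h2, h3, h4]

theorem nu_loc (h : Ok o a R K) (h' : Ok o' a' R K) {v}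
    (e : ∀ w, In v (2 * R + 1) w → o w = o' w ∧ s (o w) = s' (o w) ∧ ∀ w', a w w' = a' w w') : nu o a s v = nu o' a' s' v := by
  have x := h.h1 v
  have i : In v (2 * R + 1) v := by unfold In at *; omega
  have k : ∀ w, o w = o v ∨ o' w = o v → In v (2 * R) w := fun w b => by
    have : In (o v).2 R w := b.elim (· ▸ h.h1 w) (· ▸ h'.h1 w)
    unfold In at *
    omega
  have k1 : ∀ w, In v (2 * R) w → In v (2 * R + 1) w := fun w b => by unfold In at *; omega
  have k2 : ∀ w w', Adj w w' → In v (2 * R) w → In v (2 * R + 1) w' := fun w w' b c => by unfold In Adj at *; omega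
  refine nu_congr (e v i).1 (fun w => ⟨fun b => (e w (k1 w (k w (.inl b)))).1 ▸ b, fun b => (e w (k1 w (k w (.inr b)))).1 ▸ b⟩) (e v i).2.1 fun q' => ?_
  have : E o a (o v) q' = E o' a' (o v) q' := E_congr h.su h'.su fun w w' b c =>
    have := k w (c.imp And.left And.left)
    ⟨(e w (k1 w this)).1, (e w' (k2 w w' b this)).1, (e w (k1 w this)).2.2 w'⟩
  rw [L, L, ← this]
  by_cases y : E o a (o v) q' = 0
  · simp [y]
  obtain ⟨w, w', b, c, rfl⟩ := E_ne h.su y
  rw [sg, sg, (e v i).2.1, (e w' (k2 w w' b (k w (.inl c)))).2.1]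

theorem tot (h : Ok o a R K) (S : Finset Z2) (A W : Finset Z3) (h1 : ∀ w, o w ∈ A → w ∈ S) (h2 : A ⊆ W)
    (h3 : ∀ q ∈ A, (bx q.2 (R + 1)).image o ⊆ W) : ∑ v ∈ S with o v ∈ A, (nu o a s v : ℤ) = ∑ q ∈ A, ∑ q' ∈ W \ A, L o a s q q' := by
  rw [← sum_fiberwise_of_maps_to (t := A) (g := o) fun v x => (mem_filter.1 x).2,
    sum_congr rfl fun q x => (count h q _ fun v y => mem_filter.2 ⟨h1 v (y ▸ x), y ▸ x⟩).trans
      ((Lam_eq h q W (h3 q x)).trans (sum_sdiff h2).symm), sum_add_distrib]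
  have : ∑ q ∈ A, ∑ q' ∈ A, L o a s q q' = -∑ q ∈ A, ∑ q' ∈ A, L o a s q q' := by
    conv_lhs => rw [sum_comm]
    simp only [← sum_neg_distrib]
    exact sum_congr rfl fun _ _ => sum_congr rfl fun _ _ => L_anti h.sy _ _
  omega

theorem cons (h : Ok o a R K) (h' : Ok o' a' R K) (c : Z2) (e : ∀ w, In c (5 * R + 4) w → ¬ In c R w → o w = o' w)
    (e' : ∀ v w, In c (5 * R + 3) v → ¬ In c (R + 1) v → a v w = a' v w) :
    ∑ v ∈ bx c (3 * R + 2), (nu o a s v : ℤ) = ∑ v ∈ bx c (3 * R + 2), (nu o' a' s v : ℤ) := by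
  set A := (bx c (R + 1)).image o ∪ (bx c (R + 1)).image o' with hA
  have r : 0 ≤ R := by have := h.h1 c; unfold In at this; omega
  have a1 : ∀ w, In c (R + 1) w → o w ∈ A ∧ o' w ∈ A := fun w x =>
    ⟨mem_union_left _ (mem_image_of_mem _ (mem_bx.2 x)), mem_union_right _ (mem_image_of_mem _ (mem_bx.2 x))⟩
  have a2 : ∀ q ∈ A, ∀ w, o w = q ∨ o' w = q → In c (3 * R + 1) w := fun q x w y => by
    have : In q.2 R w := y.elim (· ▸ h.h1 w) (· ▸ h'.h1 w)
    obtain ⟨v, b, d⟩ : ∃ v, In c (R + 1) v ∧ In q.2 R v := by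
      simp only [hA, mem_union, mem_image, mem_bx] at x
      obtain ⟨v, b, rfl⟩ | ⟨v, b, rfl⟩ := x
      exacts [⟨v, b, h.h1 v⟩, ⟨v, b, h'.h1 v⟩]
    unfold In at *
    omega
  have a3 : ∀ q ∉ A, ∀ w, o w = q ∨ o' w = q → ¬ In c (R + 1) w := fun q x w y z => x (y.elim (· ▸ (a1 w z).1) (· ▸ (a1 w z).2))
  have a4 : ∀ q ∉ A, ∀ q', (∀ v w, Adj v w → o v = q ∧ o w = q' ∨ o' v = q ∧ o' w = q' → In c (5 * R + 3) v) →
      L o a s q q' = L o' a' s q q' := fun q x q' y => by
    rw [L, L, E_congr h.su h'.su fun v w b d => ?_]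
    have i := y v w b d
    have j := a3 q x v (d.imp And.left And.left)
    refine ⟨e v ?_ ?_, e w ?_ ?_, e' v w i j⟩ <;> unfold In Adj at * <;> omega
  have a5 : ∀ v ∈ bx c (3 * R + 2), (o v ∈ A ↔ o' v ∈ A) := fun v x => by
    by_cases y : In c (R + 1) v
    · simp [a1 v y]
    · rw [e v] <;> rw [mem_bx] at x <;> unfold In at * <;> omega
  have m : ∀ w, In c (3 * R + 1) w → w ∈ bx c (3 * R + 2) := fun w x => mem_bx.2 (by unfold In at *; omega)
  rw [← sum_filter_add_sum_filter_not _ (o · ∈ A), ← sum_filter_add_sum_filter_not (bx c (3 * R + 2)) (o' · ∈ A), ← filter_congr fun v x => (a5 v x).not]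
  congr 1
  · obtain ⟨W, w1, w2⟩ : ∃ W : Finset Z3, A ⊆ W ∧ ∀ q ∈ A, (bx q.2 (R + 1)).image o ⊆ W ∧ (bx q.2 (R + 1)).image o' ⊆ W :=
      ⟨A ∪ A.biUnion fun q => (bx q.2 (R + 1)).image o ∪ (bx q.2 (R + 1)).image o', subset_union_left, fun q x =>
        ⟨fun y z => mem_union_right _ (mem_biUnion.2 ⟨q, x, mem_union_left _ z⟩),
          fun y z => mem_union_right _ (mem_biUnion.2 ⟨q, x, mem_union_right _ z⟩)⟩⟩
    rw [tot h _ A W (fun w x => m w (a2 _ x w (.inl rfl))) w1 fun q x => (w2 q x).1,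
      tot h' _ A W (fun w x => m w (a2 _ x w (.inr rfl))) w1 fun q x => (w2 q x).2]
    refine sum_congr rfl fun q x => sum_congr rfl fun q' y => ?_
    rw [L_anti h.sy, L_anti h'.sy q, a4 q' (mem_sdiff.1 y).2 q fun v w b d => ?_]
    have := a2 q x w (d.imp And.right And.right)
    unfold In Adj at *
    omega
  · refine sum_congr rfl fun v x => congrArg _ ?_
    obtain ⟨x, y⟩ := mem_filter.1 x
    have k : ∀ w, o w = o v ∨ o' w = o v → In c (5 * R + 3) w := fun w b => by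
      have : In (o v).2 R w := b.elim (· ▸ h.h1 w) (· ▸ h'.h1 w)
      have := h.h1 v
      rw [mem_bx] at x
      unfold In at *
      omega
    have k' : ∀ w, o w = o v ∨ o' w = o v → o w = o' w := fun w b => by
      have := k w b
      have := a3 _ y w b
      refine e w ?_ ?_ <;> unfold In at * <;> omega
    exact nu_congr (k' v (.inl rfl)) (fun w => ⟨fun b => k' w (.inl b) ▸ b, fun b => k' w (.inr b) ▸ b⟩) rfl fun q' =>
      a4 _ y q' fun w _ _ d => k w (d.imp And.left And.left)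

theorem nu_cov (u : Z3) (ε : ℤˣ) (v : Z2) :
    nu (fun w => o (w + u.2) - u) (fun v w => a (v + u.2) (w + u.2)) (fun q => ε * s (q + u)) v = ε * nu o a s (v + u.2) := by
  have l : Lam (fun w => o (w + u.2) - u) (fun v w => a (v + u.2) (w + u.2)) (fun q => ε * s (q + u)) (o (v + u.2) - u) =
      ε * Lam o a s (o (v + u.2)) := by
    have : ∀ q', L (fun w => o (w + u.2) - u) (fun v w => a (v + u.2) (w + u.2)) (fun q => ε * s (q + u)) (o (v + u.2) - u) q' =
        ε * L o a s (o (v + u.2)) (Equiv.addRight u q') := fun q' => by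
      rw [L, L, ← mul_assoc]
      congr 2
      · obtain ⟨q, e⟩ : ∃ q, o (v + u.2) = q + u := ⟨_, (sub_add_cancel _ u).symm⟩
        simp only [sg, e, Equiv.coe_addRight, Prod.fst_add, add_sub_cancel_right, add_lt_add_iff_right]
        split_ifs <;> simp
      · exact congrArg _ ((finsum_congr fun x => by simp only [sub_eq_iff_eq_add, sub_add_cancel]; rfl).trans (finsum_comp_equiv (Equiv.addRight (u.2, u.2))))
    rw [Lam, Lam, ← finsum_comp_equiv (Equiv.addRight u) (f := L o a s _)]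
    simp only [this]
    rcases Int.units_eq_one_or ε with e | e <;> simp [e, finsum_neg_distrib]
  have n : ∀ X : Set Z2, ((· + u.2) ⁻¹' X).ncard = X.ncard := fun X =>
    Set.ncard_preimage_of_injective_subset_range (add_left_injective _) fun x _ => ⟨x - u.2, sub_add_cancel _ _⟩
  rw [nu, nu, l, ← n {w | o w = _}, ← n {w | o w = _ ∧ _}, ← mul_assoc ε]
  simp [lt2, mul_mul_mul_comm (ε : ℤ)]

end

end Pool.Agent.H.MP_073e7c_an
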