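import Mathlib
import Pool.Agent.H.MP_073e7c_an.B

set_option autoImplicit false

namespace Pool.Agent.H.MP_073e7c_an

open Finset

def Nr (k x y : ℤ) : Prop := x < y + k ∧ y < x + k

def Cf (p q : Z3) : Prop := Nr (10 ^ 37) p.1 q.1 ∧ Nr (10 ^ 9) p.2.1 q.2.1 ∧ Nr (10 ^ 9) p.2.2 q.2.2 ∨
  Nr (10 ^ 32) p.1 q.1 ∧ In p.2 (13 * 10 ^ 9) q.2 ∨ Nr (3 * 10 ^ 37) p.1 q.1 ∧ In p.2 (9 * 10 ^ 9) q.2 ∧
    (Nr 7200 p.2.1 q.2.1 ∨ Nr 7200 (p.2.1 + 4000000001) q.2.1 ∨ Nr 7200 p.2.1 (q.2.1 + 4000000001))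

def Mk (M : Z3 → Prop) : Prop := (∀ p q, M p → M q → Cf p q → p = q) ∧ ∀ q, ∃ p, M p ∧ Cf p q

variable {M M' : Z3 → Prop}

theorem cnt (h : Mk M) (F : Finset Z3) (t : ℤ) (c : Z2) (hF : ∀ p ∈ F, M p ∧ t ≤ p.1 ∧ p.1 < t + 8 * 10 ^ 37 ∧ In c (14 * 10 ^ 9) p.2) :
    F.card ≤ 7200 := by
  refine (card_le_card_of_injOn (t := Ico (0 : ℤ) 8 ×ˢ Ico (0 : ℤ) 30 ×ˢ Ico (0 : ℤ) 30) (fun p : Z3 => ((p.1 - t) / 10 ^ 37,
    (p.2.1 - c.1 + 14 * 10 ^ 9) / 10 ^ 9, (p.2.2 - c.2 + 14 * 10 ^ 9) / 10 ^ 9)) (fun p x => ?_) fun p x q y e => ?_).trans (by simp)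
  · have := hF p x
    simp only [coe_product, Set.mem_prod, mem_coe, mem_Ico, In] at this ⊢
    omega
  · simp only [Prod.mk.injEq] at e
    exact h.1 p q (hF p x).1 (hF q y).1 (.inl (by unfold Nr; omega))

theorem cover (h : Mk M) (t : ℤ) (v : Z2) : ∃ p, M p ∧ t - 3 * 10 ^ 37 < p.1 ∧ p.1 < t ∧ In p.2 (2 * 10 ^ 9) v := by
  by_contra! x
  obtain ⟨J, hJ⟩ : ∃ J : ℕ, J = 28801 := ⟨_, rfl⟩
  have : ∀ j : ℕ, ∃ y : Z3 × ℕ, j < J → M y.1 ∧ y.2 < 4 ∧ (t - 5 * 10 ^ 37 ≤ y.1.1 ∧ y.1.1 < t - 5 * 10 ^ 37 + 8 * 10 ^ 37 ∧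
      In v (14 * 10 ^ 9) y.1.2) ∧ (y.2 = 0 ∧ Nr (10 ^ 32) y.1.1 (t - 2 * 10 ^ 37 + 2 * 10 ^ 32 * j) ∨
      y.2 = 1 ∧ Nr 7200 y.1.2.1 (v.1 + 14400 * j) ∨ y.2 = 2 ∧ Nr 7200 (y.1.2.1 + 4000000001) (v.1 + 14400 * j) ∨
      y.2 = 3 ∧ Nr 7200 y.1.2.1 (v.1 + 14400 * j + 4000000001)) := fun j => by
    obtain ⟨p, a, b⟩ := h.2 (t - 2 * 10 ^ 37 + 2 * 10 ^ 32 * j, v.1 + 14400 * j, v.2)
    have := x p a
    unfold Cf Nr In at *
    dsimp only at b
    rcases b with b | b | ⟨b, c, d | d | d⟩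
    exacts [⟨(p, 0), fun _ => by omega⟩, ⟨(p, 0), fun _ => ⟨a, by dsimp only; omega⟩⟩, ⟨(p, 1), fun _ => ⟨a, by dsimp only; omega⟩⟩,
      ⟨(p, 2), fun _ => ⟨a, by dsimp only; omega⟩⟩, ⟨(p, 3), fun _ => ⟨a, by dsimp only; omega⟩⟩]
  choose y hy using this
  have c := cnt h ((range J).image fun j => (y j).1) (t - 5 * 10 ^ 37) v fun p a => by
    obtain ⟨j, b, rfl⟩ := mem_image.1 a
    exact ⟨(hy j (mem_range.1 b)).1, (hy j (mem_range.1 b)).2.2.1⟩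
  obtain ⟨i, a, j, b, n, e⟩ := exists_ne_map_eq_of_card_lt_of_maps_to (s := range J)
    (t := ((range J).image fun j => (y j).1) ×ˢ range 4) (by rw [card_product, card_range, card_range]; omega) (f := y) fun j b =>
      mem_coe.2 (mem_product.2 ⟨mem_image_of_mem _ b, mem_range.2 (hy j (mem_range.1 b)).2.1⟩)
  have h1 := (hy i (mem_range.1 a)).2.2.2
  have h2 := (hy j (mem_range.1 b)).2.2.2
  rw [e] at h1
  unfold Nr at *
  omega

def Own (M : Z3 → Prop) (t : ℤ) (v : Z2) (p : Z3) : Prop :=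
  M p ∧ p.1 < t ∧ In p.2 (2 * 10 ^ 9) v ∧ ∀ q, M q → q.1 < t → In q.2 (2 * 10 ^ 9) v → q.1 ≤ p.1

noncomputable def own (M : Z3 → Prop) (t : ℤ) (v : Z2) : Z3 := Classical.epsilon (Own M t v)

theorem own_spec (h : Mk M) (t v) : Own M t v (own M t v) := by
  obtain ⟨p, a, -, b, c⟩ := cover h t v
  obtain ⟨_, ⟨q, a, rfl, b⟩, c⟩ := Int.exists_greatest_of_bdd (P := fun s => ∃ p, M p ∧ p.1 = s ∧ s < t ∧ In p.2 (2 * 10 ^ 9) v)
    ⟨t, fun _ ⟨_, _, _, x, _⟩ => x.le⟩ ⟨_, p, a, rfl, b, c⟩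
  exact Classical.epsilon_spec ⟨q, a, b.1, b.2, fun p x y z => c _ ⟨p, x, rfl, y, z⟩⟩

theorem own_eq (h : Mk M) {t v p} (x : Own M t v p) : own M t v = p := by
  have y := own_spec h t v
  have a := x.2.2.2 _ y.1 y.2.1 y.2.2.1
  have b := y.2.2.2 _ x.1 x.2.1 x.2.2.1
  have c := x.2.2.1
  have d := y.2.2.1
  exact h.1 _ _ y.1 x.1 (.inr (.inl (by unfold Nr In at *; omega)))

theorem own_lt (h : Mk M) (t v) : t - 3 * 10 ^ 37 < (own M t v).1 :=
  let ⟨p, a, b, c, d⟩ := cover h t v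
  b.trans_le ((own_spec h t v).2.2.2 p a c d)

theorem own_loc (h : Mk M) (h' : Mk M') {t v} (e : ∀ p : Z3, t - 3 * 10 ^ 37 < p.1 → p.1 < t → In p.2 (2 * 10 ^ 9) v → (M p ↔ M' p)) :
    own M t v = own M' t v := by
  obtain ⟨a, b, c, d⟩ := own_spec h t v
  have := own_lt h t v
  exact (own_eq h' ⟨(e _ this b c).1 a, b, c, fun q x y z => by_contra fun w => w (d q ((e q (by omega) y z).2 x) y z)⟩).symm

theorem own_time (h : Mk M) {t t' v} (l : t ≤ t') (e : ∀ p, M p → t ≤ p.1 → p.1 < t' → ¬ In p.2 (2 * 10 ^ 9) v) : own M t v = own M t' v := by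
  obtain ⟨a, b, c, d⟩ := own_spec h t v
  exact (own_eq h ⟨a, by omega, c, fun q x y z => d q x (not_le.1 fun w => e q x w y z) z⟩).symm

theorem own_big (h : Mk M) (t v) : 7200 ≤ {w | own M t w = own M t v}.ncard := by
  obtain ⟨q1, q2, q3, q4⟩ := own_spec h t v
  have q5 := own_lt h t v
  generalize e : own M t v = q at *
  let C : ℤ → Prop := fun y => ∃ p, M p ∧ q.1 ≤ p.1 ∧ p.1 < t ∧ In q.2 (4 * 10 ^ 9 + 7200) p.2 ∧
    (y = p.2.1 - 2 * 10 ^ 9 ∨ y = p.2.1 + 2 * 10 ^ 9 + 1)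
  obtain ⟨a, a1, a2, a3⟩ : ∃ a, a ≤ v.1 ∧ v.1 < a + 7200 ∧ ∀ y, C y → y ≤ a ∨ a + 7200 ≤ y := by
    by_cases x : ∃ y, C y ∧ v.1 < y ∧ y < v.1 + 7200
    · obtain ⟨y, ⟨p, p1, p2⟩, b⟩ := x
      refine ⟨y - 7200, by omega, by omega, fun z ⟨p', r1, r2⟩ => ?_⟩
      have := mt (h.1 p p' p1 r1)
      by_cases c : p = p'
      · rw [c] at p2
        omega
      · have := this c
        unfold Cf Nr In at *
        omega
    · exact ⟨v.1, le_rfl, by omega, fun y c => by have := not_and.1 (not_exists.1 x y) c; omega⟩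
  have k : ∀ p, M p → q.1 ≤ p.1 → p.1 < t → In q.2 (4 * 10 ^ 9 + 7200) p.2 → ∀ x, a ≤ x → x < a + 7200 →
      (In p.2 (2 * 10 ^ 9) (x, v.2) ↔ In p.2 (2 * 10 ^ 9) v) := fun p b c d f x y z => by
    have := a3 _ ⟨p, b, c, d, f, .inl rfl⟩
    have := a3 _ ⟨p, b, c, d, f, .inr rfl⟩
    unfold In
    dsimp only
    omega
  have : (((Ico a (a + 7200)).map ⟨fun x => (x, v.2), fun _ _ e => (Prod.mk.inj e).1⟩ : Finset Z2) : Set Z2).ncard = 7200 := by
    rw [Set.ncard_coe_finset]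
    simp
  refine this.ge.trans (Set.ncard_le_ncard (fun w x => ?_) ((bx q.2 (2 * 10 ^ 9)).finite_toSet.subset fun w x => ?_))
  · replace x := mem_map.1 x
    obtain ⟨x, y, rfl⟩ := x
    rw [mem_Ico] at y
    refine own_eq h ⟨q1, q2, (k q q1 le_rfl q2 (by unfold In; omega) x y.1 y.2).2 q3, fun p b c d => by_contra fun f => f (q4 p b c ?_)⟩
    refine (k p b (by omega) c ?_ x y.1 y.2).1 d
    change In p.2 _ (x, v.2) at d
    unfold In at *
    dsimp only at d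
    omega
  · exact mem_coe.2 (mem_bx.2 ((show own M t w = q from x) ▸ (own_spec h t w).2.2.1))

def A1 (g : Z2 → ZMod 2) (v : Z2) : ZMod 2 := v.1 + 1 + g v + g (v - (0, 1))

def A2 (g : Z2 → ZMod 2) (v : Z2) : ZMod 2 := g v + g (v - (1, 0))

def aa (g : Z2 → ZMod 2) (v w : Z2) : ZMod 2 := ((if w = v + (1, 0) then A1 g v else 0) + if w = v + (0, 1) then A2 g v else 0) +
  ((if v = w + (1, 0) then A1 g w else 0) + if v = w + (0, 1) then A2 g w else 0)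

theorem ok (h : Mk M) (t g) : Ok (own M t) (aa g) (2 * 10 ^ 9) 7200 where
  h1 v := (own_spec h t v).2.2.1
  h2 := own_big h t
  h3 q := cnt h _ (t - 3 * 10 ^ 37) q.2 fun p x => by
    obtain ⟨w, a, rfl⟩ := mem_image.1 x
    obtain ⟨b, c, d, -⟩ := own_spec h t w
    have := own_lt h t w
    rw [mem_bx] at a
    exact ⟨b, by unfold In at *; omega⟩
  h4 v w a b c := by
    have d := (own_spec h t v).2.2.1
    have e := (own_spec h t w).2.2.1
    exact b (h.1 _ _ (own_spec h t v).1 (own_spec h t w).1 (.inr (.inl (by unfold Nr In Adj at *; omega))))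
  sy v w := add_comm _ _
  su v w a := by
    by_contra b
    refine a ?_
    rw [aa, if_neg, if_neg, if_neg, if_neg, add_zero, add_zero] <;> rintro rfl <;> simp [Adj] at b
  dg v F a := by
    simp only [aa, sum_add_distrib, ← sub_eq_iff_eq_add (a := v), eq_comm (a := v - _), sum_ite_eq']
    rw [if_pos, if_pos, if_pos, if_pos]
    · simp only [A1, A2, sub_right_comm v (0, 1), Prod.fst_sub]
      push_cast
      generalize (v.1 : ZMod 2) = a, g v = b, g (v - (0, 1)) = c, g (v - (1, 0)) = d, g (v - (1, 0) - (0, 1)) = e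
      revert a b c d e
      decide
    all_goals exact a _ (by simp [Adj])

theorem aa_loc {g g' v} (w) (h : ∀ f, In v 1 f → g f = g' f) : aa g v w = aa g' v w := by
  have k : ∀ x y : ℤ, -1 ≤ x → x ≤ 1 → -1 ≤ y → y ≤ 1 → ∀ f, f = v + (x, y) → g f = g' f := fun x y _ _ _ _ f e =>
    h f (by rw [e]; simp only [In, Prod.fst_add, Prod.snd_add]; omega)
  unfold aa A1 A2
  congr 2 <;> split_ifs with e <;> try rfl
  · rw [k 0 0, k 0 (-1)] <;> simp [Prod.ext_iff, sub_eq_add_neg]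
  · rw [k 0 0, k (-1) 0] <;> simp [Prod.ext_iff, sub_eq_add_neg]
  · rw [k (-1) 0, k (-1) (-1)] <;> simp [e, Prod.ext_iff, sub_eq_add_neg]
  · rw [k 0 (-1), k (-1) (-1)] <;> simp [e, Prod.ext_iff, sub_eq_add_neg]

abbrev Lab := Bool × ℤˣ × ZMod 2 × ZMod 2

def MM (D : Z3 → Lab) (p : Z3) : Prop := (D p).1 = true

noncomputable def gg (D : Z3 → Lab) (t : ℤ) (f : Z2) : ZMod 2 := (D (own (MM D) t f)).2.2.1 * f.2 + (D (own (MM D) t f)).2.2.2

noncomputable def nn (D : Z3 → Lab) (c : Z3) : ℤˣ := nu (own (MM D) c.1) (aa (gg D c.1)) (fun q => (D q).2.1) c.2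

def Near (k : ℤ) (c p : Z3) : Prop := Nr k c.1 p.1 ∧ Nr k c.2.1 p.2.1 ∧ Nr k c.2.2 p.2.2

variable {D D' : Z3 → Lab}

theorem nn_loc (h : Mk (MM D)) (h' : Mk (MM D')) {c : Z3} (e : ∀ p, Near (4 * 10 ^ 37) c p → D p = D' p) : nn D c = nn D' c := by
  have k : ∀ w, In c.2 (4 * 10 ^ 9 + 2) w → own (MM D) c.1 w = own (MM D') c.1 w ∧ D (own (MM D) c.1 w) = D' (own (MM D) c.1 w) :=
    fun w x => ⟨own_loc h h' fun p a b d => by rw [MM, MM, e p (by unfold Near Nr In at *; omega)], e _ (by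
      obtain ⟨-, a, b, -⟩ := own_spec h c.1 w
      have := own_lt h c.1 w
      unfold Near Nr In at *
      omega)⟩
  refine nu_loc (ok h _ _) (ok h' _ _) fun w x => ?_
  have := k w (by unfold In at *; omega)
  refine ⟨this.1, by rw [this.2], fun w' => aa_loc _ fun f y => ?_⟩
  have := k f (by unfold In at *; omega)
  rw [gg, gg, ← this.1, this.2]

theorem nn_step (h : Mk (MM D)) {c : Z3} (e : ∀ p, MM D p → p.1 = c.1 → ¬ In p.2 6000000002 c.2) : nn D (c.1 + 1, c.2) = nn D c := by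
  have k : ∀ w, In c.2 (4 * 10 ^ 9 + 2) w → own (MM D) (c.1 + 1) w = own (MM D) c.1 w := fun w x =>
    (own_time h (by omega) fun p a b d f => e p a (by omega) (by unfold In at *; omega)).symm
  refine nu_loc (ok h _ _) (ok h _ _) fun w x => ⟨k w (by unfold In at *; dsimp only at x; omega), rfl, fun w' => aa_loc _ fun f y => ?_⟩
  rw [gg, gg, k f (by unfold In at *; dsimp only at x; omega)]

theorem nn_box (h : Mk (MM D)) {p : Z3} (hp : MM D p) :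
    Hs (In p.2 6000000002) p.1 (10 ^ 32) (fun v => nn D (p.1, v)) fun v => nn D (p.1 + 10 ^ 32, v) := by
  have k : ∀ w, In p.2 (5 * (2 * 10 ^ 9) + 4) w → ¬ In p.2 (2 * 10 ^ 9) w → own (MM D) p.1 w = own (MM D) (p.1 + 10 ^ 32) w := fun w x y =>
    own_time h (by omega) fun q a b d f => y (h.1 q p a hp (.inr (.inl (by unfold Nr In at *; omega))) ▸ f)
  obtain ⟨r, e⟩ : ∃ r : ℕ, (r : ℤ) = 6000000002 := ⟨6000000002, rfl⟩
  rw [← e]
  refine conn p.2 r _ _ _ _ ?_ (by rw [e]; norm_num)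
  rw [e, show (6000000002 : ℤ) = 3 * (2 * 10 ^ 9) + 2 by norm_num]
  simp only [nn]
  exact cons (ok h _ _) (ok h _ _) p.2 k fun v w a b => aa_loc _ fun f y => by
    rw [gg, gg, k f (by unfold In at *; omega) (by unfold In at *; omega)]

def sh (u : Z3) (D : Z3 → Lab) (p : Z3) : Lab := ((D (p + u)).1, par u * (D (p + u)).2.1, (D (p + u)).2.2.1 + u.2.1,
  (D (p + u)).2.2.2 + (D (p + u)).2.2.1 * u.2.2)

theorem cf_sh (u p q : Z3) : Cf (p + u) (q + u) ↔ Cf p q := by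
  simp only [Cf, Nr, In, Prod.fst_add, Prod.snd_add]
  omega

theorem mk_sh (h : Mk (MM D)) (u) : Mk (MM (sh u D)) :=
  ⟨fun p q a b c => add_right_cancel (h.1 (p + u) (q + u) a b ((cf_sh u p q).2 c)), fun q => by
    obtain ⟨p, a, b⟩ := h.2 (q + u)
    exact ⟨p - u, by simpa [MM, sh] using a, (cf_sh u _ _).1 (by rwa [sub_add_cancel])⟩⟩

theorem nn_sh (h : Mk (MM D)) (u c) : nn (sh u D) c = par u * nn D (c + u) := by
  have k : ∀ w, own (MM (sh u D)) c.1 w = own (MM D) (c.1 + u.1) (w + u.2) - u := fun w => by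
    obtain ⟨a, b, d, e⟩ := own_spec h (c.1 + u.1) (w + u.2)
    refine own_eq (mk_sh h u) ⟨by simpa [MM, sh] using a, ?_, ?_, fun q x y z => ?_⟩
    · simp only [Prod.fst_sub]
      omega
    · simp only [In, Prod.fst_sub, Prod.snd_sub, Prod.fst_add, Prod.snd_add] at d ⊢
      omega
    · have := e (q + u) x
      simp only [In, Prod.fst_sub, Prod.fst_add, Prod.snd_add] at this z ⊢
      omega
  have g : ∀ f, gg (sh u D) c.1 f = gg D (c.1 + u.1) (f + u.2) + u.2.1 * f.2 := fun f => by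
    simp only [gg, k, sh, sub_add_cancel, Prod.snd_add]
    push_cast
    ring
  have a1 : ∀ v, A1 (gg (sh u D) c.1) v = A1 (gg D (c.1 + u.1)) (v + u.2) := fun v => by
    simp only [A1, g, sub_add_eq_add_sub, Prod.fst_add, Prod.snd_sub]
    push_cast
    linear_combination ((u.2.1 : ZMod 2) * v.2 - u.2.1) * CharTwo.two_eq_zero (R := ZMod 2)
  have a2 : ∀ v, A2 (gg (sh u D) c.1) v = A2 (gg D (c.1 + u.1)) (v + u.2) := fun v => by
    simp only [A2, g, sub_add_eq_add_sub, Prod.snd_sub]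
    push_cast
    linear_combination ((u.2.1 : ZMod 2) * v.2) * CharTwo.two_eq_zero (R := ZMod 2)
  rw [nn, nn, Prod.snd_add, ← nu_cov u, funext k]
  congr 1
  funext v w
  simp only [aa, a1, a2, add_right_comm _ u.2, add_left_inj, Prod.fst_add]

end Pool.Agent.H.MP_073e7c_an
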