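import Mathlib
import Pool.Agent.H.MP_073e7c_an.C

set_option autoImplicit false

namespace Pool.Agent.H.MP_073e7c_an

open Filter Topology

def Bx (p c : Z3) : Prop := p.1 ≤ c.1 ∧ c.1 < p.1 + 10 ^ 32 ∧ In p.2 6000000002 c.2

def Str (D : Z3 → Lab) (z : Z3 → Z3) (n : Z3 → ℤˣ) : Prop := Mk (MM D) ∧ ∀ c, (∀ p, MM D p → Bx p c → Cell (In p.2 6000000002) z n c) ∧
  ((∀ p, MM D p → ¬ Bx p c) → Cell (fun _ => False) z n c) ∧ ((∀ p, MM D p → Bx p c → p.1 = c.1) → n c = nn D c)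

def BD (D : Z3 → Lab) (p : Z3) (z : Z3 → Z3) (n : Z3 → ℤˣ) : Prop := (∀ c, Bx p c → Cell (In p.2 6000000002) z n c) ∧
  (∀ v, In p.2 6000000002 v → n (p.1, v) = nn D (p.1, v)) ∧ ∀ v, In p.2 6000000002 v → n (p.1 + 10 ^ 32, v) = nn D (p.1 + 10 ^ 32, v)

def X3 : Set (Z3 → Z3) := {z | ∃ D n, Str D z n}

variable {D D' : Z3 → Lab} {z : Z3 → Z3} {n : Z3 → ℤˣ}

theorem uq (h : Mk (MM D)) {p q : Z3} (hp : MM D p) (hq : MM D q) {v} (a : In p.2 6000000002 v) (b : In q.2 6000000002 v)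
    (c : Nr (10 ^ 32) p.1 q.1) : p = q := h.1 p q hp hq (.inr (.inl ⟨c, by unfold In at *; omega⟩))

theorem build (h : Mk (MM D)) (Z : Z3 → Z3 → Z3) (N : Z3 → Z3 → ℤˣ) (H : ∀ p, MM D p → BD D p (Z p) (N p)) :
    ∃ z ∈ X3, (∀ p c, MM D p → Bx p c → z c = Z p c) ∧
      ∀ c, (∀ p, MM D p → ¬ Bx p c) → z c = if nn D c = par c then (-1, 0) else (1, 0) := by
  classical
  have : ∀ c, ∃ y : Z3 × ℤˣ, (∀ p, MM D p → Bx p c → y = (Z p c, N p c)) ∧
      ((∀ p, MM D p → ¬ Bx p c) → y = (if nn D c = par c then (-1, 0) else (1, 0), nn D c)) := fun c => by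
    by_cases e : ∃ p, MM D p ∧ Bx p c
    · obtain ⟨p, a, b⟩ := e
      exact ⟨_, fun q x y => by rw [uq h x a y.2.2 b.2.2 (by unfold Bx Nr at *; omega)], fun x => absurd b (x p a)⟩
    · exact ⟨_, fun p a b => absurd ⟨p, a, b⟩ e, fun _ => rfl⟩
  choose y y1 y2 using this
  have hn : ∀ c, (∀ p, MM D p → Bx p c → p.1 = c.1) → (y c).2 = nn D c := fun c x => by
    by_cases e : ∃ p, MM D p ∧ Bx p c
    · obtain ⟨p, a, b⟩ := e
      rw [y1 c p a b]
      have := (H p a).2.1 _ b.2.2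
      rwa [x p a b] at this
    · rw [y2 c fun p a b => e ⟨p, a, b⟩]
  refine ⟨fun c => (y c).1, ⟨D, fun c => (y c).2, h, fun c => ⟨fun p a b => ?_, fun a => ?_, hn c⟩⟩,
    fun p c a b => congrArg Prod.fst (y1 c p a b), fun c a => congrArg Prod.fst (y2 c a)⟩
  · refine ((H p a).1 c b).congr (fun w x => by rw [y1 (c.1, w) p a ⟨b.1, b.2.1, x⟩]) b.2.2 (by rw [y1 c p a b]) ?_
    by_cases e : c.1 + 1 = p.1 + 10 ^ 32
    · rw [e, (H p a).2.2 _ b.2.2]
      refine hn _ fun q x w => by_contra fun f => ?_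
      have := uq h x a w.2.2 b.2.2 (by unfold Bx Nr at *; dsimp only at w f; omega)
      rw [this] at w
      exact lt_irrefl _ w.2.1
    · rw [y1 (c.1 + 1, c.2) p a ⟨by have := b.1; dsimp only; omega, by have := b.2.1; dsimp only; omega, b.2.2⟩]
  · have e : (y (c.1 + 1, c.2)).2 = nn D c := (hn _ fun q x w => by_contra fun f => a q x (by
      unfold Bx at *; dsimp only at w f; exact ⟨by omega, by omega, w.2.2⟩)).trans (nn_step h fun p x w f => a p x ⟨w.le, by omega, f⟩)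
    unfold Cell
    simp only [e, y2 c a]
    by_cases f : nn D c = par c
    · exact .inl ⟨if_pos f, f, f⟩
    · exact .inr (.inl ⟨if_neg f, (u2 _ _).resolve_left f, (u2 _ _).resolve_left f⟩)

theorem agree (h : Mk (MM D)) (h' : Str D' z n) (A : Set Z3) (e : ∀ a ∈ A, ∀ p, Near (6 * 10 ^ 37) a p → D p = D' p) :
    (∀ p, MM D p → (∃ a ∈ A, Bx p a) → BD D p z n) ∧
      ∀ c ∈ A, (∀ p, MM D p → ¬ Bx p c) → z c = if nn D c = par c then (-1, 0) else (1, 0) := by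
  have k : ∀ a ∈ A, ∀ c, Near (10 ^ 37) a c → nn D' c = nn D c := fun a x c y =>
    nn_loc h'.1 h fun p w => (e a x p (by unfold Near Nr at *; omega)).symm
  have m : ∀ a ∈ A, ∀ p, Bx p a → (MM D p ↔ MM D' p) := fun a x p y => by rw [MM, MM, e a x p (by unfold Near Nr Bx In at *; omega)]
  refine ⟨fun p x ⟨a, y, w⟩ => ?_, fun c x y => ?_⟩
  · replace x := (m a y p w).1 x
    refine ⟨fun c => (h'.2 c).1 p x, fun v b => ((h'.2 _).2.2 fun q c d => ?_).trans (k a y _ ?_),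
      fun v b => ((h'.2 _).2.2 fun q c d => by_contra fun f => ?_).trans (k a y _ ?_)⟩
    · rw [uq h'.1 c x d.2.2 b (by unfold Bx Nr at *; dsimp only at d; omega)]
    · unfold Near Nr Bx In at *; dsimp only; omega
    · have := uq h'.1 c x d.2.2 b (by unfold Bx Nr at *; dsimp only at d f; omega)
      rw [this] at d
      exact lt_irrefl _ d.2.1
    · unfold Near Nr Bx In at *; dsimp only; omega
  · replace y : ∀ p, MM D' p → ¬ Bx p c := fun p a b => y p ((m c x p b).2 a) b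
    rw [← k c x c (by unfold Near Nr; omega), ← (h'.2 c).2.2 fun p a b => absurd b (y p a)]
    obtain ⟨a, b, -⟩ | ⟨a, b, -⟩ | ⟨_, a, -⟩ := (h'.2 c).2.1 y
    · rw [if_pos b, a]
    · rw [if_neg (b ▸ (un _).symm), a]
    · exact a.elim

theorem cf_symm {p q} (h : Cf p q) : Cf q p := by unfold Cf Nr In at *; omega

theorem cf_near {p q} (h : Cf p q) : Near (3 * 10 ^ 37) p q := by unfold Cf Near Nr In at *; omega

theorem ext_mk (M0 : Set Z3) (h : ∀ p ∈ M0, ∀ q ∈ M0, Cf p q → p = q) : ∃ M : Set Z3, M0 ⊆ M ∧ Mk (· ∈ M) := by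
  obtain ⟨M, a, b⟩ := zorn_subset_nonempty {M : Set Z3 | ∀ p ∈ M, ∀ q ∈ M, Cf p q → p = q} (fun c hc ch _ => ⟨⋃₀ c, by
    rintro p ⟨s, a, x⟩ q ⟨t, b, y⟩
    rcases ch.total a b with e | e
    exacts [hc b p (e x) q y, hc a p x q (e y)], fun s a => Set.subset_sUnion_of_mem a⟩) M0 h
  refine ⟨M, a, fun p q x y => b.1 p x q y, fun q => by_contra fun x => x ⟨q, b.2 (y := insert q M) ?_ (Set.subset_insert _ _) (.inl rfl),
    .inl (by unfold Nr; omega)⟩⟩
  rintro p (rfl | y) p' (rfl | w) c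
  exacts [rfl, absurd ⟨_, w, cf_symm c⟩ x, absurd ⟨_, y, c⟩ x, b.1 p y p' w c]

theorem bd_ex (h : Mk (MM D)) {p} (hp : MM D p) : ∃ z n, BD D p z n :=
  let ⟨z, n, a, b⟩ := nn_box h hp
  ⟨z, n, fun c x => a c x.1 x.2.1 x.2.2, b⟩

theorem X3_ne : X3.Nonempty := by
  classical
  obtain ⟨M, -, h⟩ := ext_mk ∅ (by simp)
  replace h : Mk (MM fun p => (decide (p ∈ M), 1, 0, 0)) := by simpa [MM, Mk] using h
  choose! Z N H using fun p => bd_ex h (p := p)
  exact (build h Z N H).imp fun _ => And.left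

theorem X3_si {x y} (hx : x ∈ X3) (hy : y ∈ X3) (A B : Set Z3) (h : ∀ a ∈ A, ∀ b ∈ B, ¬ Near (10 ^ 39) a b) :
    ∃ z ∈ X3, (∀ a ∈ A, z a = x a) ∧ ∀ b ∈ B, z b = y b := by
  classical
  obtain ⟨D1, n1, s1⟩ := hx
  obtain ⟨D2, n2, s2⟩ := hy
  obtain ⟨M, m, hM⟩ := ext_mk {p | MM D1 p ∧ (∃ a ∈ A, Near (9 * 10 ^ 37) a p) ∨ MM D2 p ∧ ∃ a ∈ B, Near (9 * 10 ^ 37) a p} (by
    rintro p (⟨a, b, c, d⟩ | ⟨a, b, c, d⟩) q (⟨a', b', c', d'⟩ | ⟨a', b', c', d'⟩) e
    · exact s1.1.1 p q a a' e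
    · exact absurd (by have := cf_near e; unfold Near Nr at *; omega) (h b c b' c')
    · exact absurd (by have := cf_near e; unfold Near Nr at *; omega) (h b' c' b c)
    · exact s2.1.1 p q a a' e)
  let D : Z3 → Lab := fun p => (decide (p ∈ M), if ∃ a ∈ A, Near (9 * 10 ^ 37) a p then (D1 p).2 else (D2 p).2)
  have hD : Mk (MM D) := by simpa [MM, Mk, D] using hM
  have k : ∀ (D' : Z3 → Lab) (a p : Z3), Mk (MM D') → (∀ q, MM D' q → Near (9 * 10 ^ 37) a q → q ∈ M) → Near (6 * 10 ^ 37) a p →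
      decide (p ∈ M) = (D' p).1 := fun D' a p b c d => by
    rw [Bool.eq_iff_iff, decide_eq_true_eq]
    refine ⟨fun e => ?_, fun e => c p e (by unfold Near Nr at *; omega)⟩
    obtain ⟨q, f, g⟩ := b.2 p
    exact hM.1 q p (c q f (by have := cf_near g; unfold Near Nr at *; omega)) e g ▸ f
  obtain ⟨a1, a2⟩ := agree hD s1 A fun a b p c => Prod.ext (k D1 a p s1.1 (fun q d e => m (.inl ⟨d, a, b, e⟩)) c)
    (if_pos ⟨a, b, by unfold Near Nr at *; omega⟩)
  obtain ⟨b1, b2⟩ := agree hD s2 B fun a b p c => Prod.ext (k D2 a p s2.1 (fun q d e => m (.inr ⟨d, a, b, e⟩)) c)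
    (if_neg fun ⟨a', b', d⟩ => h a' b' a b (by unfold Near Nr at *; omega))
  have : ∀ p, ∃ Z N, MM D p → BD D p Z N ∧ ((∃ a ∈ A, Bx p a) → Z = x) ∧ ((∃ a ∈ B, Bx p a) → Z = y) := fun p => by
    by_cases c : ∃ a ∈ A, Bx p a
    · refine ⟨x, n1, fun d => ⟨a1 p d c, fun _ => rfl, fun ⟨b, e, f⟩ => ?_⟩⟩
      obtain ⟨a, g, i⟩ := c
      exact absurd (by unfold Near Nr Bx In at *; omega) (h a g b e)
    by_cases c' : ∃ a ∈ B, Bx p a
    · exact ⟨y, n2, fun d => ⟨b1 p d c', fun e => absurd e c, fun _ => rfl⟩⟩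
    by_cases d : MM D p
    · obtain ⟨Z, N, e⟩ := bd_ex hD d
      exact ⟨Z, N, fun _ => ⟨e, fun e => absurd e c, fun e => absurd e c'⟩⟩
    · exact ⟨x, n1, fun e => absurd e d⟩
  choose Z N H using this
  obtain ⟨z, z1, z2, z3⟩ := build hD Z N fun p a => (H p a).1
  refine ⟨z, z1, fun c a => ?_, fun c a => ?_⟩ <;> by_cases e : ∃ p, MM D p ∧ Bx p c
  · obtain ⟨p, f, g⟩ := e
    rw [z2 p c f g, (H p f).2.1 ⟨c, a, g⟩]
  · rw [z3 c fun p f g => e ⟨p, f, g⟩, a2 c a fun p f g => e ⟨p, f, g⟩]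
  · obtain ⟨p, f, g⟩ := e
    rw [z2 p c f g, (H p f).2.2 ⟨c, a, g⟩]
  · rw [z3 c fun p f g => e ⟨p, f, g⟩, b2 c a fun p f g => e ⟨p, f, g⟩]

theorem X3_dom (h : z ∈ X3) : Dom z := by
  obtain ⟨D, n, h⟩ := h
  refine dom_of (n := n) fun c => ?_
  by_cases e : ∃ p, MM D p ∧ Bx p c
  · obtain ⟨p, f, g⟩ := e
    exact ⟨_, (h.2 c).1 p f g⟩
  · exact ⟨_, (h.2 c).2.1 fun p f g => e ⟨p, f, g⟩⟩

theorem cell_sh {B B' : Z2 → Prop} {c u : Z3} (h : Cell B z n (c + u)) (e : ∀ w, B w → B' (w - u.2)) :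
    Cell B' (fun c => z (c + u)) (fun c => par u * n (c + u)) c := by
  have p : par u * par (c + u) = par c := by
    simp only [par, Prod.fst_add, Prod.snd_add]
    rw [← Int.negOnePow_add, Int.negOnePow_eq_iff]
    exact ⟨u.1 + u.2.1 + u.2.2, by ring⟩
  have q : (((c + u).1 + 1, (c + u).2) : Z3) = (c.1 + 1, c.2) + u := Prod.ext (add_right_comm _ _ _) rfl
  unfold Cell at h ⊢
  rw [q] at h
  obtain ⟨a, b, d⟩ | ⟨a, b, d⟩ | ⟨w, f, g, a, i, b, d⟩ := h
  · exact .inl ⟨a, by simp only [b, p], by simp only [d, p]⟩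
  · exact .inr (.inl ⟨a, by simp only [b, p, mul_neg], by simp only [d, p, mul_neg]⟩)
  · refine .inr (.inr ⟨w - u.2, e w f, ?_, a.trans (by simp [sub_sub, add_comm]), ?_, by simp only [b, p, mul_neg], by simp only [d, p]⟩)
    · simp only [Adj, Prod.fst_add, Prod.snd_add, Prod.fst_sub, Prod.snd_sub] at g ⊢
      omega
    · dsimp only
      rw [show ((c.1, w - u.2) : Z3) + u = ((c + u).1, w) from Prod.ext rfl (sub_add_cancel _ _), i]
      simp [sub_sub_eq_add_sub]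

theorem X3_sh (h : z ∈ X3) (u : Z3) : (fun c => z (c + u)) ∈ X3 := by
  obtain ⟨D, n, h⟩ := h
  have b : ∀ p c, Bx (p + u) (c + u) ↔ Bx p c := fun p c => by
    simp only [Bx, In, Prod.fst_add, Prod.snd_add]
    omega
  have m : ∀ p, MM D p → MM (sh u D) (p - u) := fun p a => by simpa [MM, sh] using a
  have b' : ∀ p c, Bx p (c + u) → Bx (p - u) c := fun p c a => (b _ _).1 (by rwa [sub_add_cancel])
  refine ⟨sh u D, fun c => par u * n (c + u), mk_sh h.1 u, fun c => ⟨fun p x y => cell_sh ((h.2 _).1 (p + u) x ((b _ _).2 y)) fun w a => ?_,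
    fun x => cell_sh ((h.2 _).2.1 fun p y w => x _ (m p y) (b' p c w)) fun _ => id, fun x => ?_⟩⟩
  · simp only [In, Prod.fst_add, Prod.snd_add, Prod.fst_sub, Prod.snd_sub] at a ⊢
    omega
  · rw [nn_sh h.1, ← (h.2 _).2.2 fun p y w => sub_eq_iff_eq_add.1 (x _ (m p y) (b' p c w))]

theorem X3_cl : IsClosed X3 := by
  refine isClosed_iff_ultrafilter.2 fun x u hu hX => ?_
  choose! D n H using fun z (h : z ∈ X3) => h
  choose l hl using fun p => (Ultrafilter.eventually_exists_iff (f := u) (P := fun (l : Lab × ℤˣ) z => (D z p, n z p) = l)).1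
    (.of_forall fun z => ⟨_, rfl⟩)
  have k : ∀ c, ∃ D z n, Str D z n ∧ ∀ p, Near (5 * 10 ^ 37) c p → D p = (l p).1 ∧ n p = (l p).2 ∧ z p = x p := fun c => by
    have f : {p | Near (5 * 10 ^ 37) c p}.Finite := (Set.finite_Icc (c - (10 ^ 38, 10 ^ 38, 10 ^ 38)) (c + (10 ^ 38, 10 ^ 38, 10 ^ 38))).subset
      fun p a => by
        simp only [Set.mem_Icc, Prod.le_def, Prod.fst_add, Prod.snd_add, Prod.fst_sub, Prod.snd_sub, Set.mem_ofPred_eq, Near, Nr] at a ⊢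
        omega
    obtain ⟨z, a, b⟩ := (Eventually.and hX ((eventually_all_finite f).2 fun p _ => (hl p).and (hu
      ((continuous_apply p).continuousAt.preimage_mem_nhds ((isOpen_discrete {x p}).mem_nhds rfl))))).exists
    exact ⟨D z, z, n z, H z a, fun p y => ⟨congrArg Prod.fst (b p y).1, congrArg Prod.snd (b p y).1, (b p y).2⟩⟩
  have m : Mk (MM fun p => (l p).1) := by
    refine ⟨fun p q a b c => ?_, fun q => ?_⟩
    · obtain ⟨D, z, n, s, e⟩ := k p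
      have := cf_near c
      exact s.1.1 p q (by rwa [MM, (e p (by unfold Near Nr; omega)).1]) (by rwa [MM, (e q (by unfold Near Nr at *; omega)).1]) c
    · obtain ⟨D, z, n, s, e⟩ := k q
      obtain ⟨p, a, b⟩ := s.1.2 q
      have := cf_near b
      exact ⟨p, by rwa [MM, ← (e p (by unfold Near Nr at *; omega)).1], b⟩
  refine ⟨fun p => (l p).1, fun p => (l p).2, m, fun c => ?_⟩
  obtain ⟨D, z, n, s, e⟩ := k c
  have e0 := e c (by unfold Near Nr; omega)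
  have e1 := e (c.1 + 1, c.2) (by unfold Near Nr; dsimp only; omega)
  have mm : ∀ p, Bx p c → (MM D p ↔ MM (fun p => (l p).1) p) := fun p a => by rw [MM, MM, (e p (by unfold Near Nr Bx In at *; omega)).1]
  refine ⟨fun p a b => ((s.2 c).1 p ((mm p b).2 a) b).congr (fun w y => (e _ ?_).2.2.symm) b.2.2 e0.2.1.symm e1.2.1.symm, fun a => ?_,
    fun a => e0.2.1.symm.trans (((s.2 c).2.2 fun p y w => a p ((mm p w).1 y) w).trans
      (nn_loc s.1 m fun p y => (e p (by unfold Near Nr at *; omega)).1))⟩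
  · unfold Near Nr Bx In at *
    dsimp only
    omega
  · obtain y | y | ⟨_, y, -⟩ := (s.2 c).2.1 fun p y w => a p ((mm p w).1 y) w
    · exact .inl (by rwa [e0.2.2, e0.2.1, e1.2.1] at y)
    · exact .inr (.inl (by rwa [e0.2.2, e0.2.1, e1.2.1] at y))
    · exact y.elim

end Pool.Agent.H.MP_073e7c_an
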